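import Pool.Agent.Lib.MP_64d474_lc.Blk.Spec

/-!
B1: the elements are the points of blocks of 8 points, one block for each site.
-/

namespace Pool.Agent.Lib.MP_64d474_lc.Blk

open Equiv Pool.Agent.Lib.MP_64d474_lc.Circ

namespace CellAux

/-- the points of the block of a link: two rows and six padding elements -/
def pA : Fin 8 ≃ ℤˣ ⊕ Fin 6 where
  toFun a := if a = 0 then .inl 1 else if a = 1 then .inl (-1) else .inr ⟨a.val - 2, by omega⟩
  invFun x := match x with
    | .inl s => if s = 1 then 0 else 1
    | .inr i => ⟨i.val + 2, by omega⟩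
  left_inv := by decide
  right_inv := by decide

/-- the points of the block of a node: four columns and four variables -/
def pB : Fin 8 ≃ (Bool × ℤˣ) ⊕ (Bool × ℤˣ) where
  toFun a := if a.val < 4 then .inl (a.val.testBit 1, if a.val.testBit 0 then -1 else 1)
    else .inr (a.val.testBit 1, if a.val.testBit 0 then -1 else 1)
  invFun x := match x with
    | .inl (c, s) => if c then (if s = 1 then 2 else 3) else (if s = 1 then 0 else 1)
    | .inr (c, s) => if c then (if s = 1 then 6 else 7) else (if s = 1 then 4 else 5)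
  left_inv := by decide
  right_inv := by decide

/-- exchange of the kinds and change of the signs -/
def qq (b : Bool) (s0 s1 : ℤˣ) : Perm (Bool × ℤˣ) where
  toFun p := (xor p.1 b, (if p.1 then s1 else s0) * p.2)
  invFun p := (xor p.1 b, (if xor p.1 b then s1 else s0) * p.2)
  left_inv := by revert b s0 s1; decide
  right_inv := by revert b s0 s1; decide

lemma sign_qq : ∀ (b : Bool) (s0 s1 : ℤˣ), Perm.sign (qq b s0 s1) = s0 * s1 := by decide +kernel

/-- change of the signs of the rows and exchange of two padding elements -/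
def kl (s : ℤˣ) : Perm (ℤˣ ⊕ Fin 6) :=
  Equiv.sumCongr (Equiv.mulLeft s) (if s = 1 then 1 else Equiv.swap 0 1)

lemma sign_kl (s : ℤˣ) : Perm.sign (kl s) = 1 := by
  have h : ∀ s : ℤˣ, Perm.sign (Equiv.mulLeft s) *
      Perm.sign (if s = 1 then (1 : Perm (Fin 6)) else Equiv.swap 0 1) = 1 := by decide +kernel
  rw [← h s]
  exact Perm.sign_sumCongr _ _

lemma kl_one : kl 1 = 1 := by
  unfold kl
  ext x
  rcases x with x | x <;> simp

lemma mem_comm (σ : Perm (Fin 8)) (h : Perm.sign σ = 1) : σ ∈ commutator (Perm (Fin 8)) := by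
  rw [alternatingGroup.commutator_perm_eq (by simp)]
  exact Perm.mem_alternatingGroup.mpr h

variable {N : Type}

/-- the action on the columns of a node -/
def kc (E : Bool → Bool → ℤˣ) : Perm (Bool × ℤˣ) := qq (swb E) (scol E false) (scol E true)

/-- the action on the variables of a node -/
def kv (E : Bool → Bool → ℤˣ) : Perm (Bool × ℤˣ) := qq (swb E) (svar E false) (svar E true)

lemma kc_apply (E : Bool → Bool → ℤˣ) (c : Bool) (s : ℤˣ) :
    kc E (c, s) = (xor c (swb E), scol E c * s) := by
  cases c <;> rfl

lemma kv_apply (E : Bool → Bool → ℤˣ) (c : Bool) (s : ℤˣ) :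
    kv E (c, s) = (xor c (swb E), svar E c * s) := by
  cases c <;> rfl

/-- the action on the points of a node -/
def kn (E : Bool → Bool → ℤˣ) : Perm ((Bool × ℤˣ) ⊕ (Bool × ℤˣ)) := Equiv.sumCongr (kc E) (kv E)

lemma sign_kn (E : Bool → Bool → ℤˣ) : Perm.sign (kn E) = 1 := by
  unfold kn
  have h1 : Perm.sign (Equiv.sumCongr (kc E) (kv E)) = Perm.sign (kc E) * Perm.sign (kv E) :=
    Perm.sign_sumCongr _ _
  rw [h1, kc, kv, sign_qq, sign_qq]
  simp only [scol, svar, if_true, Bool.false_eq_true, if_false, mul_one]
  rw [mul_comm (E true true), Int.units_mul_self]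

lemma kn_one : kn (fun _ _ => 1) = 1 := by
  unfold kn
  ext1 x
  rcases x with ⟨c, s⟩ | ⟨c, s⟩
  · rw [Equiv.sumCongr_apply, Sum.map_inl, kc_apply]
    cases c <;> simp [swb, scol]
  · rw [Equiv.sumCongr_apply, Sum.map_inr, kv_apply]
    cases c <;> simp [swb, svar]

variable {m : ℕ}

/-- the elements as points of the blocks -/
def cell (pd : (Bool × N) × Fin 6 ≃ Fin m) : Site N × Fin 8 ≃ El N m where
  toFun p := match p with
    | (.inl r, a) => match pA a with
      | .inl s => .inl (r, s)
      | .inr i => .inr (.inr (.inr (pd (r, i))))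
    | (.inr v, a) => match pB a with
      | .inl (c, s) => .inr (.inl ((c, v), s))
      | .inr (c, s) => .inr (.inr (.inl ((c, v), s)))
  invFun z := match z with
    | .inl (r, s) => (.inl r, pA.symm (.inl s))
    | .inr (.inl ((c, v), s)) => (.inr v, pB.symm (.inl (c, s)))
    | .inr (.inr (.inl ((c, v), s))) => (.inr v, pB.symm (.inr (c, s)))
    | .inr (.inr (.inr z)) => (.inl (pd.symm z).1, pA.symm (.inr (pd.symm z).2))
  left_inv := by
    rintro ⟨r | v, a⟩
    · rcases h : pA a with s | i
      · simp only [h]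
        rw [← h, Equiv.symm_apply_apply]
      · simp only [h, Equiv.symm_apply_apply]
        rw [← h, Equiv.symm_apply_apply]
    · rcases h : pB a with ⟨c, s⟩ | ⟨c, s⟩
      · simp only [h]
        rw [← h, Equiv.symm_apply_apply]
      · simp only [h]
        rw [← h, Equiv.symm_apply_apply]
  right_inv := by
    rintro (⟨r, s⟩ | ⟨⟨c, v⟩, s⟩ | ⟨⟨c, v⟩, s⟩ | z)
    · simp
    · simp
    · simp
    · simp

lemma cell_link (pd : (Bool × N) × Fin 6 ≃ Fin m) (r : Bool × N) (x : ℤˣ ⊕ Fin 6) :
    cell pd (.inl r, pA.symm x) = match x with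
      | .inl s => .inl (r, s)
      | .inr i => .inr (.inr (.inr (pd (r, i)))) := by
  rcases x with s | i <;> simp [cell]

lemma cell_node (pd : (Bool × N) × Fin 6 ≃ Fin m) (v : N) (x : (Bool × ℤˣ) ⊕ (Bool × ℤˣ)) :
    cell pd (.inr v, pB.symm x) = match x with
      | .inl (c, s) => .inr (.inl ((c, v), s))
      | .inr (c, s) => .inr (.inr (.inl ((c, v), s))) := by
  rcases x with ⟨c, s⟩ | ⟨c, s⟩ <;> simp [cell]

/-- the action on the padding elements of a link -/
def kp (s : ℤˣ) : Perm (Fin 6) := if s = 1 then 1 else Equiv.swap 0 1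

/-- the action on the padding elements -/
def pp (g : Gauge N) : Perm ((Bool × N) × Fin 6) where
  toFun p := (p.1, kp (g.rho p.1) p.2)
  invFun p := (p.1, (kp (g.rho p.1))⁻¹ p.2)
  left_inv p := by simp
  right_inv p := by simp

end CellAux

open CellAux

/-- B1. -/
theorem stCell : StCell := by
  intro N _ _
  have hcard : Fintype.card ((Bool × N) × Fin 6) = 12 * Fintype.card N := by
    simp only [Fintype.card_prod, Fintype.card_bool, Fintype.card_fin]
    ring
  let pd : (Bool × N) × Fin 6 ≃ Fin (12 * Fintype.card N) := Fintype.equivFinOfCardEq hcard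
  refine ⟨cell pd, ?_, ?_⟩
  · rintro (r | v) a
    · obtain ⟨x, rfl⟩ := pA.symm.surjective a
      rw [cell_link]
      rcases x with s | i
      · rfl
      · trivial
    · obtain ⟨x, rfl⟩ := pB.symm.surjective a
      rw [cell_node]
      rcases x with ⟨c, s⟩ | ⟨c, s⟩
      · rfl
      · rfl
  · intro g
    refine ⟨fun s => match s with
      | .inl r => pA.symm.permCongr (kl (g.rho r))
      | .inr v => pB.symm.permCongr (kn (g.eps v)), pd.permCongr (pp g), ?_, ?_, ?_⟩
    · rintro (r | v)
      · apply mem_comm
        rw [Perm.sign_permCongr, sign_kl]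
      · apply mem_comm
        rw [Perm.sign_permCongr, sign_kn]
    · rintro (r | v) h
      · have h' : g.rho r = 1 := (show (gid N).rho r = g.rho r from h).symm
        simp only [h', kl_one]
        ext x
        simp [Equiv.permCongr_apply]
      · have h' : g.eps v = fun _ _ => 1 := (show (gid N).eps v = g.eps v from h).symm
        simp only [h', kn_one]
        ext x
        simp [Equiv.permCongr_apply]
    · rintro (r | v) a
      · obtain ⟨x, rfl⟩ := pA.symm.surjective a
        simp only [Equiv.permCongr_apply, Equiv.symm_symm, Equiv.apply_symm_apply]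
        rw [cell_link, cell_link]
        rcases x with s | i
        · rfl
        · simp only [kl, Equiv.sumCongr_apply, Sum.map_inr, gmapP, Equiv.permCongr_apply,
            Equiv.symm_apply_apply]
          rfl
      · obtain ⟨x, rfl⟩ := pB.symm.surjective a
        simp only [Equiv.permCongr_apply, Equiv.symm_symm, Equiv.apply_symm_apply]
        rw [cell_node, cell_node]
        rcases x with ⟨c, s⟩ | ⟨c, s⟩
        · simp only [kn, Equiv.sumCongr_apply, Sum.map_inl, kc_apply, gmapP, Sum.map_inr]
          rfl
        · simp only [kn, Equiv.sumCongr_apply, Sum.map_inr, kv_apply, gmapP, Sum.map_inl]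
          rfl

end Pool.Agent.Lib.MP_64d474_lc.Blk
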