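import Pool.Agent.Lib.MP_64d474_lc.Blk.Main
import Pool.Agent.Lib.SymCirc.Triv

/-!
Small blocks: the group of block permutations, and symmetric circuits for the determinant.
-/

namespace Pool.Agent.Lib.MP_64d474_lc.Blk

open Equiv Pool.Agent.Lib.MP_64d474_lc.Circ

/-- The block permutations form a group of order `(8!) ^ m`. -/
theorem group3 {m n : ℕ} (e : Fin m × Fin 8 ↪ Fin n) :
    ∃ K : Subgroup (Perm (Fin n × Fin n × Fin n)),
      (K : Set (Perm (Fin n × Fin n × Fin n))) = blockPerms3 e ∧ Nat.card K = 40320 ^ m := by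
  have hinj : Function.Injective (act3Hom e) := by
    intro k k' h
    funext b
    ext a : 1
    have h1 : act3 e k (e (b, a), e (b, a), e (b, a)) = act3 e k' (e (b, a), e (b, a), e (b, a)) :=
      congrArg (fun σ : Perm (Fin n × Fin n × Fin n) => σ (e (b, a), e (b, a), e (b, a))) h
    rw [act3_eq, act3_eq] at h1
    have h2 : act1 e k (e (b, a)) = act1 e k' (e (b, a)) := congrArg Prod.fst h1
    rw [act1_apply, act1_apply] at h2
    exact congrArg Prod.snd (e.injective h2)
  refine ⟨(act3Hom e).range, ?_, ?_⟩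
  · ext σ
    constructor
    · rintro ⟨k, rfl⟩
      exact ⟨k, rfl⟩
    · rintro ⟨k, rfl⟩
      exact ⟨k, rfl⟩
  · rw [← Nat.card_congr (MonoidHom.ofInjective hinj).toEquiv, Nat.card_eq_fintype_card,
      Fintype.card_fun, Fintype.card_perm, Fintype.card_fin, Fintype.card_fin]
    rfl

/-- Block permutations preserve nonsingularity. -/
theorem det_unc {m n : ℕ} (e : Fin m × Fin 8 ↪ Fin n) (σ : Perm (Fin n × Fin n × Fin n))
    (hσ : σ ∈ blockPerms3 e) (a : Fin n × Fin n × Fin n → ℤ) :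
    (symMat fun i j l => (a ∘ σ) (i, j, l)).det ≠ 0 ↔ (symMat fun i j l => a (i, j, l)).det ≠ 0 := by
  obtain ⟨k, rfl⟩ := hσ
  have h1 : (fun i j l => (a ∘ act3 e k) (i, j, l)) =
      Circ.trans (act1 e k).symm fun i j l => a (i, j, l) := rfl
  rw [h1, det_trans]
  rw [not_iff_not]
  constructor
  · intro h
    apply MvPolynomial.rename_injective (act1 e k).symm (act1 e k).symm.injective
    rw [h, map_zero]
  · intro h
    rw [h, map_zero]

/-- A symmetric circuit for nonsingularity. -/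
theorem conv3 {m n : ℕ} (e : Fin m × Fin 8 ↪ Fin n) :
    ∃ (V : Type) (C : SymCirc.Circuit (Fin n × Fin n × Fin n) ℤ V) (yes : V),
      C.SymmetricUnder (blockPerms3 e) ∧ Finite C.G ∧
      Nat.card C.G = 40320 ^ m * (n ^ 3 + 1) + 1 ∧
      ∀ a : Fin n → Fin n → Fin n → ℤ, C.val (unc a) C.out = yes ↔ (symMat a).det ≠ 0 := by
  obtain ⟨K, hK, hc⟩ := group3 e
  obtain ⟨V, C, yes, h1, h2, h3, h4⟩ := SymCirc.exists_symmetric (A := ℤ) K
    (fun a => (symMat fun i j l => a (i, j, l)).det ≠ 0) (by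
      intro σ hσ a
      refine det_unc e σ ?_ a
      rw [← hK]
      exact hσ)
  refine ⟨V, C, yes, ?_, h2, ?_, fun a => h4 (unc a)⟩
  · rw [← hK]
    exact h1
  · rw [h3, hc]
    have h5 : Nat.card (Fin n × Fin n × Fin n) = n ^ 3 := by
      rw [Nat.card_eq_fintype_card, Fintype.card_prod, Fintype.card_prod, Fintype.card_fin]
      ring
    rw [h5]

end Pool.Agent.Lib.MP_64d474_lc.Blk
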