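import Pool.Agent.Lib.MP_64d474_lc.Blk.Spec
import Pool.Agent.Lib.MP_64d474_lc.Circ.Path

/-!
B3, B4: the two matrices differ only at entries which involve one node; the pebble game for a given
node.
-/

namespace Pool.Agent.Lib.MP_64d474_lc.Blk

open Equiv Pool.Agent.Lib.MP_64d474_lc.Circ

namespace LocalAux

variable {N : Type} [DecidableEq N]

lemma dbl_eq (P : Bool → Perm N) (t : N → ℤˣ) (x : N) (r c y : Ix N) (h : c.1.2 ≠ x) :
    dbl P (s0 t) r c y = dbl P (s1 t (P false x)) r c y := by
  unfold dbl
  congr 2
  unfold base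
  split_ifs with h1 h2 h3 h3
  · congr 2
    have h4 : s1 t (P false x) r.1 = s0 t r.1 := by
      unfold s1
      rw [if_neg]
      intro h5
      rw [h5] at h3
      exact h ((P false).injective h3.1.symm)
    rw [h4]
  · rfl
  · congr 2
    have h4 : s1 t (P false x) r.1 = s0 t r.1 := by
      unfold s1
      rw [if_neg]
      intro h5
      rw [h5] at h3
      exact h ((P false).injective h3.1.symm)
    rw [h4]
  · rfl
  · rfl

end LocalAux

open LocalAux

/-- B3. -/
theorem stLocal : StLocal := by
  intro N _ _ P t m x u v w hu hv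
  rcases u with r | c | y | z
  · rcases v with r' | c' | y' | z'
    · rfl
    · rcases w with r'' | c'' | y'' | z''
      · rfl
      · rfl
      · show dbl P (s0 t) r c' y'' = dbl P (s1 t (P false x)) r c' y''
        apply dbl_eq
        intro h
        rcases hv with hv | hv
        · exact hv (by simp [OnSite, h])
        · simp at hv
      · rfl
    · rfl
    · rfl
  · rcases v with r' | c' | y' | z'
    · rcases w with r'' | c'' | y'' | z''
      · rfl
      · rfl
      · show dbl P (s0 t) r' c y'' = dbl P (s1 t (P false x)) r' c y''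
        apply dbl_eq
        intro h
        rcases hu with hu | hu
        · exact hu (by simp [OnSite, h])
        · simp at hu
      · rfl
    · rfl
    · rfl
    · rfl
  · rcases v with r' | c' | y' | z'
    · rfl
    · rfl
    · rcases w with r'' | c'' | y'' | z'' <;> rfl
    · rfl
  · rcases v with r' | c' | y' | z'
    · rfl
    · rfl
    · rfl
    · rcases w with r'' | c'' | y'' | z'' <;> rfl

/-- B4. -/
theorem stGameAt : StGameAt := by
  classical
  intro N _ _ P k m t hN hbig C0 c0 hC0 hc0
  refine ⟨PosE P t (P false c0) c0 k, ?_, ?_, ?_, ?_⟩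
  · refine ⟨by simp, C0, gid N, c0, false, true, ?_, hc0, gid_def P t c0, by simp⟩
    simpa [sitesE] using hC0
  · rintro p q ⟨hcard, C, g, x, d, e, hC, hx, hdef, hz⟩ hqp
    refine ⟨(Finset.card_le_card hqp).trans hcard, C, g, x, d, e,
      hC.mono (Finset.image_subset_image hqp), hx, hdef, fun z hz' => hz z (hqp hz')⟩
  · rintro p ⟨hcard, C, g, x, d, e, hC, hx, hdef, hz⟩ u hu v hv
    refine ⟨?_, fun w hw => ?_⟩
    · rw [hz u hu, hz v hv]
      exact (gmapE_inj g).eq_iff.symm
    · rw [hz u hu, hz v hv, hz w hw]
      have hx' := hC.2.1 x hx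
      refine tens_gauge P t (P false c0) c0 g x d e hdef u.1 v.1 w.1 (fun h => hx' ?_)
        (fun h => hx' ?_)
      · rw [← h]; exact Finset.mem_image_of_mem _ hu
      · rw [← h]; exact Finset.mem_image_of_mem _ hv
  · rintro p ⟨hcard, C, g, x, d, e, hC, hx, hdef, hz⟩ hlt
    have hS : (sitesE c0 p).card < k := lt_of_le_of_lt Finset.card_image_le hlt
    have hT : ∀ T : Site N, ∃ (CT : Finset N) (gT : Gauge N) (xT : N) (dT eT : Bool),
        Big P (insert T (sitesE c0 p)) CT ∧ xT ∈ CT ∧ HasDef P t (P false c0) gT xT dT eT ∧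
        ∀ z ∈ sitesE c0 p, Agree g gT z := by
      intro T
      obtain ⟨CT, hCT⟩ := hbig (insert T (sitesE c0 p))
        ((Finset.card_insert_le _ _).trans hS)
      obtain ⟨xT, h1, h2⟩ := hC.inter hCT
      obtain ⟨gT, dT, eT, h3, h4⟩ := stPath N P t (P false c0) (sitesE c0 p) g x xT d e hdef
        (hC.2.2 x hx xT h1)
      exact ⟨CT, gT, xT, dT, eT, hCT, h2, h3, h4⟩
    choose CT gT xT dT eT hBig hxT hdT hag using hT
    have hinj : Function.Injective (fun u : El N m => gmapE m (gT (siteE c0 u)) u) := by
      intro u v huv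
      have hs : siteE c0 u = siteE c0 v := by
        have := congrArg (siteE c0) huv
        simpa only [siteE_gmapE] using this
      simp only [hs] at huv
      exact gmapE_inj _ huv
    refine ⟨Equiv.ofBijective _ (Finite.injective_iff_bijective.1 hinj), fun u => ?_⟩
    refine ⟨(Finset.card_insert_le _ _).trans hlt, CT (siteE c0 u), gT (siteE c0 u),
      xT (siteE c0 u), dT (siteE c0 u), eT (siteE c0 u), ?_, hxT _, hdT _, ?_⟩
    · have : sitesE c0 (insert (u, (Equiv.ofBijective _
          (Finite.injective_iff_bijective.1 hinj)) u) p) = insert (siteE c0 u) (sitesE c0 p) := by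
        simp [sitesE, Finset.image_insert]
      rw [this]
      exact hBig _
    · intro z hz'
      rcases Finset.mem_insert.1 hz' with rfl | hz'
      · rfl
      · rw [hz z hz']
        exact gmapE_congr (c0 := c0) (hag _ _ (Finset.mem_image_of_mem _ hz'))

end Pool.Agent.Lib.MP_64d474_lc.Blk
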