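import Pool.Agent.Lib.MP_64d474_lc.Blk.Place

/-!
Small blocks: assembly.
-/

namespace Pool.Agent.Lib.MP_64d474_lc.Blk

open Equiv Pool.Agent.Lib.MP_64d474_lc.Circ

section Copy

variable {Nd : Type} [Fintype Nd] [DecidableEq Nd] {m m1 N n : ℕ} (e : Fin m × Fin 8 ↪ Fin n)
  (eI : Site Nd × Fin 8 ≃ Fin m1) (ιb : Fin N × Site Nd ↪ Fin m) (P : Bool → Perm Nd)
  (t : Nd → ℤˣ) (D : Site Nd × Fin 8 ≃ El Nd (12 * Fintype.card Nd))

/-- The untwisted tensor. -/
def aT : Site Nd × Fin 8 → Site Nd × Fin 8 → Site Nd × Fin 8 → ℤ :=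
  fun i j l => tens P (s0 t) (12 * Fintype.card Nd) (D i) (D j) (D l)

/-- The twisted tensor. -/
def bT (x : Nd) : Site Nd × Fin 8 → Site Nd × Fin 8 → Site Nd × Fin 8 → ℤ :=
  fun i j l => tens P (s1 t (P false x)) (12 * Fintype.card Nd) (D i) (D j) (D l)

/-- The tensors of the hybrid `j`, with the twist of the copy `j` at `x`. -/
def fx (c0 : Nd) (j : Fin N) (x : Nd) :
    Fin N → Site Nd × Fin 8 → Site Nd × Fin 8 → Site Nd × Fin 8 → ℤ :=
  fun τ => if τ = j then bT P t D x else if τ.val < j.val then bT P t D c0 else aT P t D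

/-- The tensors of the hybrid `j`. -/
def f0 (c0 : Nd) (j : ℕ) : Fin N → Site Nd × Fin 8 → Site Nd × Fin 8 → Site Nd × Fin 8 → ℤ :=
  fun τ => if τ.val < j then bT P t D c0 else aT P t D

theorem f0_succ (c0 : Nd) (j : Fin N) : f0 (N := N) P t D c0 (j.val + 1) = fx P t D c0 j c0 := by
  funext τ
  unfold f0 fx
  by_cases h : τ = j
  · subst h
    rw [if_pos (Nat.lt_succ_self _), if_pos rfl]
  · have h' : τ.val ≠ j.val := fun hh => h (Fin.ext hh)
    rw [if_neg h]
    exact if_congr (by omega) rfl rfl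

/-- The sites of the copy `j` whose blocks are in `Δ`. -/
def pre (j : Fin N) (Δ : Finset (Fin m)) : Finset (Site Nd) :=
  Finset.univ.filter fun s => ιb (j, s) ∈ Δ

omit [DecidableEq Nd] in
theorem mem_pre (j : Fin N) (Δ : Finset (Fin m)) (s : Site Nd) :
    s ∈ pre ιb j Δ ↔ ιb (j, s) ∈ Δ := by
  simp [pre]

omit [DecidableEq Nd] in
theorem card_pre (j : Fin N) (Δ : Finset (Fin m)) : (pre ιb j Δ).card ≤ Δ.card := by
  have hinj : Function.Injective fun s : Site Nd => ιb (j, s) := by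
    intro s s' h
    exact congrArg Prod.snd (ιb.injective h)
  rw [← Finset.card_map ⟨_, hinj⟩]
  refine Finset.card_le_card fun i hi => ?_
  obtain ⟨s, hs, rfl⟩ := Finset.mem_map.mp hi
  exact (mem_pre ιb j Δ s).mp hs

/-- The available positions. -/
def wd (j : Fin N) (Δ : Finset (Fin m)) : Set Nd := {x | ∃ C, Big P (pre ιb j Δ) C ∧ x ∈ C}

/-- Moving the twist. -/
theorem move (hD : ∀ g : Gauge Nd, ∃ (κ : Site Nd → Perm (Fin 8))
      (π : Perm (Fin (12 * Fintype.card Nd))),
      (∀ s, κ s ∈ commutator (Perm (Fin 8))) ∧ (∀ s, Agree (gid Nd) g s → κ s = 1) ∧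
      ∀ s a, D (s, κ s a) = gmapP g π (D (s, a)))
    (hTw : StTwist) (c0 : Nd) (j : Fin N) (Δ : Finset (Fin m)) (x y : Nd)
    (hr : Reach P (pre ιb j Δ) x y) :
    ∃ γ : Fin m → Perm (Fin 8), SymCirc.Loc Finset.univ Δ γ ∧
      unc (XX e eI ιb (fx P t D c0 j y)) = unc (XX e eI ιb (fx P t D c0 j x)) ∘ (act3 e γ).symm := by
  classical
  obtain ⟨g, hg, hT⟩ := hTw Nd P t (12 * Fintype.card Nd) (pre ιb j Δ) x y hr
  obtain ⟨κ, π, h1, h2, h3⟩ := hD g
  -- the family of permutations
  let k : Fin m → Perm (Fin 8) := fun b => if h : ∃ s, ιb (j, s) = b then κ h.choose else 1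
  have hk : ∀ s, k (ιb (j, s)) = κ s := by
    intro s
    have h : ∃ s', ιb (j, s') = ιb (j, s) := ⟨s, rfl⟩
    simp only [k]
    rw [dif_pos h]
    congr 1
    exact congrArg Prod.snd (ιb.injective h.choose_spec)
  have hk' : ∀ τ s, τ ≠ j → k (ιb (τ, s)) = 1 := by
    intro τ s hτ
    simp only [k]
    rw [dif_neg]
    rintro ⟨s', h⟩
    exact hτ (congrArg Prod.fst (ιb.injective h)).symm
  refine ⟨k⁻¹, ⟨fun b => ?_, fun b hb => ?_⟩, ?_⟩
  · rw [Pi.inv_apply]
    refine inv_mem ?_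
    simp only [k]
    split_ifs with h
    · exact h1 _
    · exact one_mem _
  · rw [Pi.inv_apply, inv_eq_one]
    rcases hb with hb | hb
    · simp only [k]
      split_ifs with h
      · apply h2
        apply hg
        rw [mem_pre, h.choose_spec]
        exact hb
      · rfl
    · exact absurd (Finset.mem_univ b) hb
  · funext u
    obtain ⟨i, i', i''⟩ := u
    have hs : (act3 e k⁻¹).symm = (act1 e k).prodCongr ((act1 e k).prodCongr (act1 e k)) := by
      rw [act3_eq]
      have h4 := act1_inv e k⁻¹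
      rw [inv_inv] at h4
      rw [← h4]
      rfl
    change XX e eI ιb (fx P t D c0 j y) i i' i'' =
      unc (XX e eI ιb (fx P t D c0 j x)) ((act3 e k⁻¹).symm (i, i', i''))
    rw [hs]
    change _ = XX e eI ιb (fx P t D c0 j x) (act1 e k i) (act1 e k i') (act1 e k i'')
    symm
    refine XX_act e eI ιb k _ _ ?_ i i' i''
    intro τ s s' s'' a a' a''
    by_cases hτ : τ = j
    · subst hτ
      simp only [fx, if_true, hk]
      unfold bT
      rw [h3, h3, h3, hT]
    · simp only [fx, if_neg hτ, hk' τ _ hτ]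
      rfl

/-- The hybrid and its twisted version agree at the triples whose blocks avoid the site. -/
theorem agree (hD : ∀ s a, OnSite s (D (s, a))) (hLoc : StLocal) (c0 : Nd) (j : Fin N) (x : Nd)
    (u : Fin n × Fin n × Fin n) (hx : Sum.inr x ∉ pre ιb j (blk3 e u)) :
    unc (XX e eI ιb (f0 P t D c0 j.val)) u = unc (XX e eI ιb (fx P t D c0 j x)) u := by
  obtain ⟨i, i', i''⟩ := u
  change XX e eI ιb _ i i' i'' = XX e eI ιb _ i i' i''
  by_cases h1 : ∀ τ s a, i ≠ ix e ιb τ s a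
  · rw [XX_out e eI ιb _ _ _ _ (Or.inl h1), XX_out e eI ιb _ _ _ _ (Or.inl h1)]
  by_cases h2 : ∀ τ s a, i' ≠ ix e ιb τ s a
  · rw [XX_out e eI ιb _ _ _ _ (Or.inr (Or.inl h2)), XX_out e eI ιb _ _ _ _ (Or.inr (Or.inl h2))]
  by_cases h3 : ∀ τ s a, i'' ≠ ix e ιb τ s a
  · rw [XX_out e eI ιb _ _ _ _ (Or.inr (Or.inr h3)), XX_out e eI ιb _ _ _ _ (Or.inr (Or.inr h3))]
  push Not at h1 h2 h3
  obtain ⟨τ, s, a, rfl⟩ := h1
  obtain ⟨τ', s', a', rfl⟩ := h2
  obtain ⟨τ'', s'', a'', rfl⟩ := h3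
  rw [XX_apply, XX_apply]
  by_cases hτ : τ = τ' ∧ τ' = τ''
  · obtain ⟨rfl, rfl⟩ := hτ
    simp only [and_self, if_true]
    unfold f0 fx
    by_cases hj : τ = j
    · subst hj
      rw [if_neg (lt_irrefl _), if_pos rfl]
      unfold aT bT
      have hne : ∀ s a, ix e ιb τ s a ∈ ({ix e ιb τ s a} : Set (Fin n)) →
          ιb (τ, s) ∈ blk3 e (ix e ιb τ s a, ix e ιb τ s' a', ix e ιb τ s'' a'') := by
        intro s a _
        unfold blk3 ix
        rw [blk_apply]
        simp
      have key : ∀ s a, s ≠ Sum.inr x → ¬ OnSite (Sum.inr x) (D (s, a)) ∨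
          D (s, a) ∈ Set.range (fun z : Fin (12 * Fintype.card Nd) =>
            (Sum.inr (Sum.inr (Sum.inr z)) : El Nd (12 * Fintype.card Nd))) := by
        intro s a hs
        have h4 := hD s a
        revert h4
        rcases D (s, a) with r | c | v | z
        · intro _
          left
          exact fun h => by simp [OnSite] at h
        · intro h4
          left
          intro h5
          exact hs (h4.trans h5.symm)
        · intro h4
          left
          intro h5
          exact hs (h4.trans h5.symm)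
        · intro _
          right
          exact ⟨z, rfl⟩
      refine hLoc Nd P t _ x _ _ _ (key s a ?_) (key s' a' ?_)
      · rintro rfl
        apply hx
        rw [mem_pre]
        unfold blk3 ix
        rw [blk_apply]
        simp
      · rintro rfl
        apply hx
        rw [mem_pre]
        unfold blk3 ix
        rw [blk_apply, blk_apply]
        simp
    · rw [if_neg hj]
  · rw [if_neg hτ, if_neg hτ]

/-- One step of the hybrid argument. -/
theorem step (hCl : (∀ s a, OnSite s (D (s, a))) ∧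
      ∀ g : Gauge Nd, ∃ (κ : Site Nd → Perm (Fin 8)) (π : Perm (Fin (12 * Fintype.card Nd))),
      (∀ s, κ s ∈ commutator (Perm (Fin 8))) ∧ (∀ s, Agree (gid Nd) g s → κ s = 1) ∧
      ∀ s a, D (s, κ s a) = gmapP g π (D (s, a)))
    (hTw : StTwist) (hLoc : StLocal) (hTr : SymCirc.StTransfer') (q : ℕ) (hq : 2 ≤ q)
    (hbig : ∀ Δ : Finset (Site Nd), Δ.card ≤ 4 * q → ∃ C, Big P Δ C) (C0 : Finset Nd) (c0 : Nd)
    (hC0 : Big P ∅ C0) (hc0 : c0 ∈ C0) (V : Type) (C : SymCirc.Circuit (Fin n × Fin n × Fin n) ℤ V)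
    (hsym : C.SymmetricUnder (blockPerms3 e))
    (horb : ∀ g, (C.orbit (blockPerms3 e) g).Finite ∧ (C.orbit (blockPerms3 e) g).ncard < 2 ^ q)
    (j : Fin N) :
    C.val (unc (XX e eI ιb (f0 P t D c0 j.val))) C.out =
      C.val (unc (XX e eI ιb (f0 P t D c0 (j.val + 1)))) C.out := by
  have hK : blockPerms3 e = SymCirc.KK (act3Hom e) Finset.univ := by
    ext σ
    constructor
    · rintro ⟨k, rfl⟩
      exact ⟨k, fun i hi => absurd (Finset.mem_univ i) hi, rfl⟩
    · rintro ⟨k, _, rfl⟩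
      exact ⟨k, rfl⟩
  rw [hK] at hsym horb
  rw [f0_succ]
  refine hTr (Fin m) (Perm (Fin 8)) (Fin n × Fin n × Fin n) ℤ V Nd (act3Hom e) Finset.univ q
    (2 * q - 1) (blk3 e) (unc (XX e eI ιb (f0 P t D c0 j.val)))
    (fun x => unc (XX e eI ιb (fx P t D c0 j x))) (wd ιb P j) C (by omega) ?_ ?_ ?_ ?_ ?_ ?_ hsym
    horb c0 ?_
  · intro p
    refine (Finset.card_le_card Finset.inter_subset_left).trans ((blk3_card e p).trans (by omega))
  · exact fun k p => blk3_act e k p
  · intro Δ _ hΔ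
    obtain ⟨C, hC⟩ := hbig (pre ιb j Δ) ((card_pre ιb j Δ).trans (by omega))
    have hC1 := hC.1
    have : 0 < C.card := by omega
    obtain ⟨w, hw⟩ := Finset.card_pos.mp this
    exact ⟨w, C, hC, hw⟩
  · rintro Δ Δ' hΔ w ⟨C, hC, hw⟩
    refine ⟨C, hC.mono (fun s hs => ?_), hw⟩
    rw [mem_pre] at hs ⊢
    exact hΔ hs
  · rintro Δ _ w ⟨C, hC, hw⟩ w' ⟨C', hC', hw'⟩
    obtain ⟨z, hz, hz'⟩ := hC.inter hC'
    exact move e eI ιb P t D hCl.2 hTw c0 j Δ w w'
      (Relation.ReflTransGen.trans (hC.2.2 w hw z hz) (hC'.2.2 z hz' w' hw'))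
  · rintro p w ⟨C, hC, hw⟩
    refine agree e eI ιb P t D hCl.1 hLoc c0 j w p ?_
    intro hh
    apply hC.2.1 w hw
    rw [mem_pre] at hh ⊢
    exact Finset.mem_inter.mpr ⟨hh, Finset.mem_univ _⟩
  · refine ⟨C0, ?_, hc0⟩
    have : pre ιb j ∅ = ∅ := by
      ext s
      simp [pre]
    rw [this]
    exact hC0

end Copy

theorem block_of (hE : StExpander) (hC : StComp) (hS : StSign) (hDt : StDet) (hT : StTens)
    (hCell : StCell) (hTw : StTwist) (hLoc : StLocal) (hG : StGameAt) (hTr : SymCirc.StTransfer')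
    (hL : StLogic) : StBlock := by
  intro q N m n e hq hN hm
  obtain ⟨P, hP⟩ := hE (4 * q) (by omega)
  have hNd : 2 ≤ Fintype.card (Fin (128 * (4 * q))) := by rw [Fintype.card_fin]; omega
  obtain ⟨s, hs⟩ := hS (Fin (128 * (4 * q))) ((P false).trans (P true).symm)
  obtain ⟨t, ht⟩ : ∃ t : Fin (128 * (4 * q)) → ℤˣ, ∀ x, t (P false x) = s x :=
    ⟨fun y => s ((P false).symm y), fun x => by simp⟩
  obtain ⟨hd0, hd1⟩ := hDt (Fin (128 * (4 * q))) P t (by
    intro v hv
    refine hs v fun x => ?_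
    rw [← ht]
    exact hv x)
  have hbig := hC _ P (4 * q) hNd hP
  obtain ⟨C0, hC0⟩ := hbig ∅ (by simp)
  obtain ⟨c0, hc0⟩ : C0.Nonempty := by
    rw [← Finset.card_pos]
    have := hC0.1
    omega
  have hKq := hG (Fin (128 * (4 * q))) P (4 * q) (12 * Fintype.card (Fin (128 * (4 * q)))) t hNd hbig
    C0 c0 hC0 hc0
  obtain ⟨D, hCl⟩ := hCell (Fin (128 * (4 * q)))
  -- placing the sites in the blocks
  have hcard : Fintype.card (Fin N × Site (Fin (128 * (4 * q)))) = 1536 * q * N := by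
    simp only [Site, Fintype.card_sum, Fintype.card_prod, Fintype.card_bool, Fintype.card_fin]
    ring
  obtain ⟨ιb⟩ : Nonempty (Fin N × Site (Fin (128 * (4 * q))) ↪ Fin m) :=
    Function.Embedding.nonempty_of_card_le (by rw [hcard, Fintype.card_fin]; exact hm)
  obtain ⟨m1, ⟨eI⟩⟩ : ∃ m1, Nonempty (Site (Fin (128 * (4 * q))) × Fin 8 ≃ Fin m1) :=
    ⟨_, ⟨Fintype.equivFin _⟩⟩
  have ha : XX e eI ιb (f0 (N := N) P t D c0 0) = ext (place e eI ιb) (Circ.trans finProdFinEquiv
      (copies (Fin N) (Circ.trans eI (aT P t D)))) := by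
    have : f0 (N := N) P t D c0 0 = fun _ => aT P t D := by
      funext τ
      unfold f0
      rw [if_neg (by omega)]
    rw [this]
    rfl
  have hb : XX e eI ιb (f0 (N := N) P t D c0 N) = ext (place e eI ιb) (Circ.trans finProdFinEquiv
      (copies (Fin N) (Circ.trans eI (bT P t D c0)))) := by
    have : f0 (N := N) P t D c0 N = fun _ => bT P t D c0 := by
      funext τ
      unfold f0
      rw [if_pos τ.2]
    rw [this]
    rfl
  -- symmetry and range
  have hs : ∀ c : Fin m1 → Fin m1 → Fin m1 → ℤ, (∀ i j l, c i j l = c j i l) → ∀ i j l,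
      Circ.trans finProdFinEquiv (copies (Fin N) c) i j l =
        Circ.trans finProdFinEquiv (copies (Fin N) c) j i l :=
    fun c hc i j l => copies_symm c hc _ _ _
  have hr : ∀ c : Fin m1 → Fin m1 → Fin m1 → ℤ, (∀ i j l, c i j l ∈ ({-1, 0, 1, 2} : Set ℤ)) →
      ∀ i j l, Circ.trans finProdFinEquiv (copies (Fin N) c) i j l ∈ ({-1, 0, 1, 2} : Set ℤ) :=
    fun c hc i j l => copies_range c hc _ _ _
  -- determinants
  have hda : (symMat (Circ.trans eI (aT P t D))).det ≠ 0 := by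
    have e1 : aT P t D = Circ.trans D.symm (tens P (s0 t) _) := rfl
    rw [det_trans, e1, det_trans]
    intro h
    apply (hT _ P (s0 t) _).1 hd0
    apply MvPolynomial.rename_injective D.symm D.symm.injective
    apply MvPolynomial.rename_injective eI eI.injective
    rw [h, map_zero, map_zero]
  have hdb : (symMat (Circ.trans eI (bT P t D c0))).det = 0 := by
    have e1 : bT P t D c0 = Circ.trans D.symm (tens P (s1 t (P false c0)) _) := rfl
    rw [det_trans, e1, det_trans, (hT _ P (s1 t (P false c0)) _).2 (hd1 _), map_zero, map_zero]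
  have hK : KEquiv (Circ.trans eI (aT P t D)) (Circ.trans eI (bT P t D c0)) (4 * q) :=
    kequiv_trans eI (kequiv_trans D.symm hKq)
  refine ⟨XX e eI ιb (f0 P t D c0 0), XX e eI ιb (f0 P t D c0 N), ?_, ?_, ?_, ?_, ?_, ?_⟩
  · intro i j l
    rw [ha]
    exact ⟨ext_symm _ _ (hs (Circ.trans eI (aT P t D)) fun i j l => tens_symm P (s0 t) _ _ _ _) i j l,
      ext_range _ _ (hr (Circ.trans eI (aT P t D)) fun i j l => tens_range P (s0 t) _ _ _ _) i j l⟩
  · intro i j l
    rw [hb]
    exact ⟨ext_symm _ _ (hs (Circ.trans eI (bT P t D c0)) fun i j l =>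
        tens_symm P (s1 t (P false c0)) _ _ _ _) i j l,
      ext_range _ _ (hr (Circ.trans eI (bT P t D c0)) fun i j l =>
        tens_range P (s1 t (P false c0)) _ _ _ _) i j l⟩
  · rw [ha]
    intro h0
    have h1 := (det_ext _ _).1 h0
    rw [det_trans] at h1
    apply det_copies_ne_zero (T := Fin N) _ hda
    apply MvPolynomial.rename_injective (finProdFinEquiv (m := m1) (n := N))
      finProdFinEquiv.injective
    rw [h1, map_zero]
  · intro F _ x
    rw [hb]
    exact rank_gap finProdFinEquiv (place e eI ιb) _ x hdb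
  · intro V C hsym horb
    have key : ∀ j, j ≤ N → C.val (unc (XX e eI ιb (f0 P t D c0 0))) C.out =
        C.val (unc (XX e eI ιb (f0 P t D c0 j))) C.out := by
      intro j
      induction j with
      | zero => intro _; rfl
      | succ j ih =>
        intro hj
        rw [ih (by omega)]
        exact step e eI ιb P t D hCl hTw hLoc hTr q hq hbig C0 c0 hC0 hc0 V C hsym horb ⟨j, by omega⟩
    exact key N le_rfl
  · intro φ
    rw [ha, hb]
    exact hL (Fin n) _ _ (4 * q) (kequiv_ext _ (kequiv_trans _ (kequiv_copies hK))) φ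

end Pool.Agent.Lib.MP_64d474_lc.Blk
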