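import Pool.Agent.Lib.MP_64d474_lc.Blk.Spec

/-!
Small blocks: placing copies in the blocks, and the action on the coefficients.
-/

namespace Pool.Agent.Lib.MP_64d474_lc.Blk

open Equiv Pool.Agent.Lib.MP_64d474_lc.Circ

/-! ### The action -/

section Act

variable {m n : ℕ} (e : Fin m × Fin 8 ↪ Fin n)

theorem ptMap_mul (k k' : Fin m → Perm (Fin 8)) :
    SymCirc.ptMap (k * k') = SymCirc.ptMap k * SymCirc.ptMap k' := by
  ext u <;> rfl

/-- The action on indices. -/
noncomputable def act1 (k : Fin m → Perm (Fin 8)) : Perm (Fin n) :=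
  Perm.viaEmbedding (SymCirc.ptMap k) e

theorem act1_apply (k : Fin m → Perm (Fin 8)) (b : Fin m) (a : Fin 8) :
    act1 e k (e (b, a)) = e (b, k b a) := by
  unfold act1
  rw [Perm.viaEmbedding_apply]
  rfl

theorem act1_out (k : Fin m → Perm (Fin 8)) {i : Fin n} (hi : i ∉ Set.range e) :
    act1 e k i = i := Perm.viaEmbedding_apply_of_notMem _ _ _ hi

theorem act1_mul (k k' : Fin m → Perm (Fin 8)) : act1 e (k * k') = act1 e k * act1 e k' := by
  unfold act1
  rw [ptMap_mul, ← Perm.viaEmbeddingHom_apply, map_mul]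
  rfl

theorem act3_eq (k : Fin m → Perm (Fin 8)) :
    act3 e k = (act1 e k).prodCongr ((act1 e k).prodCongr (act1 e k)) := rfl

/-- The action on triples as a homomorphism. -/
noncomputable def act3Hom : (Fin m → Perm (Fin 8)) →* Perm (Fin n × Fin n × Fin n) where
  toFun k := act3 e k
  map_one' := by
    have h1 : act1 e 1 = 1 := by
      have := act1_mul e 1 1
      rw [one_mul] at this
      exact (left_eq_mul.mp this)
    rw [act3_eq, h1]
    rfl
  map_mul' k k' := by
    rw [act3_eq, act3_eq, act3_eq, act1_mul]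
    rfl

theorem act1_inv (k : Fin m → Perm (Fin 8)) : (act1 e k).symm = act1 e k⁻¹ := by
  have h1 : act1 e 1 = 1 := by
    have := act1_mul e 1 1
    rw [one_mul] at this
    exact (left_eq_mul.mp this)
  have h2 : act1 e k * act1 e k⁻¹ = 1 := by rw [← act1_mul, mul_inv_cancel, h1]
  exact (eq_inv_of_mul_eq_one_right h2).symm

open Classical in
/-- The block of an index. -/
noncomputable def blk (i : Fin n) : Finset (Fin m) :=
  Finset.univ.filter fun b => ∃ a, e (b, a) = i

theorem blk_apply (b : Fin m) (a : Fin 8) : blk e (e (b, a)) = {b} := by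
  ext b'
  simp only [blk, Finset.mem_filter, Finset.mem_univ, true_and, Finset.mem_singleton]
  constructor
  · rintro ⟨a', h⟩
    have := e.injective h
    exact congrArg Prod.fst this
  · rintro rfl
    exact ⟨a, rfl⟩

theorem blk_card (i : Fin n) : (blk e i).card ≤ 1 := by
  rw [Finset.card_le_one]
  intro b hb b' hb'
  simp only [blk, Finset.mem_filter, Finset.mem_univ, true_and] at hb hb'
  obtain ⟨a, rfl⟩ := hb
  obtain ⟨a', h⟩ := hb'
  exact (congrArg Prod.fst (e.injective h)).symm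

theorem blk_act (k : Fin m → Perm (Fin 8)) (i : Fin n) : blk e (act1 e k i) = blk e i := by
  by_cases hi : i ∈ Set.range e
  · obtain ⟨⟨b, a⟩, rfl⟩ := hi
    rw [act1_apply, blk_apply, blk_apply]
  · rw [act1_out e k hi]

/-- The blocks of a triple. -/
noncomputable def blk3 (u : Fin n × Fin n × Fin n) : Finset (Fin m) :=
  blk e u.1 ∪ (blk e u.2.1 ∪ blk e u.2.2)

theorem blk3_card (u : Fin n × Fin n × Fin n) : (blk3 e u).card ≤ 3 := by
  refine (Finset.card_union_le _ _).trans ?_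
  have h1 := Finset.card_union_le (blk e u.2.1) (blk e u.2.2)
  have h2 := blk_card e u.1
  have h3 := blk_card e u.2.1
  have h4 := blk_card e u.2.2
  omega

theorem blk3_act (k : Fin m → Perm (Fin 8)) (u : Fin n × Fin n × Fin n) :
    blk3 e (act3 e k u) = blk3 e u := by
  obtain ⟨i, j, l⟩ := u
  change blk e (act1 e k i) ∪ (blk e (act1 e k j) ∪ blk e (act1 e k l)) = _
  rw [blk_act, blk_act, blk_act]
  rfl

end Act

/-! ### Placing copies -/

section Place

variable {Si : Type} {m m1 N n : ℕ} (e : Fin m × Fin 8 ↪ Fin n)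
  (eI : Si × Fin 8 ≃ Fin m1) (ιb : Fin N × Si ↪ Fin m)

/-- The place of the indices of the copies. -/
def place : Fin (m1 * N) ↪ Fin n where
  toFun u := e (ιb ((finProdFinEquiv.symm u).2, (eI.symm (finProdFinEquiv.symm u).1).1),
    (eI.symm (finProdFinEquiv.symm u).1).2)
  inj' u v h := by
    have h1 := e.injective h
    simp only [Prod.mk.injEq] at h1
    obtain ⟨h2, h3⟩ := h1
    have h4 := ιb.injective h2
    simp only [Prod.mk.injEq] at h4
    have h5 : eI.symm (finProdFinEquiv.symm u).1 = eI.symm (finProdFinEquiv.symm v).1 :=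
      Prod.ext h4.2 h3
    exact finProdFinEquiv.symm.injective (Prod.ext (eI.symm.injective h5) h4.1)

/-- The coefficients of the placed copies. -/
noncomputable def XX (f : Fin N → Si × Fin 8 → Si × Fin 8 → Si × Fin 8 → ℤ) :
    Fin n → Fin n → Fin n → ℤ :=
  ext (place e eI ιb) (Circ.trans finProdFinEquiv (mix fun τ => Circ.trans eI (f τ)))

/-- The index of the point `a` of the site `s` in the copy `τ`. -/
def ix (τ : Fin N) (s : Si) (a : Fin 8) : Fin n := e (ιb (τ, s), a)

theorem place_apply (τ : Fin N) (s : Si) (a : Fin 8) :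
    place e eI ιb (finProdFinEquiv (eI (s, a), τ)) = ix e ιb τ s a := by
  simp only [place, Function.Embedding.coeFn_mk, Equiv.symm_apply_apply, ix]

theorem XX_apply (f : Fin N → Si × Fin 8 → Si × Fin 8 → Si × Fin 8 → ℤ) (τ τ' τ'' : Fin N)
    (s s' s'' : Si) (a a' a'' : Fin 8) :
    XX e eI ιb f (ix e ιb τ s a) (ix e ιb τ' s' a') (ix e ιb τ'' s'' a'') =
      if τ = τ' ∧ τ' = τ'' then f τ (s, a) (s', a') (s'', a'') else 0 := by
  unfold XX
  rw [← place_apply e eI ιb τ s a, ← place_apply e eI ιb τ' s' a', ← place_apply e eI ιb τ'' s'' a'',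
    ext_apply]
  simp only [Circ.trans, mix, Equiv.symm_apply_apply]

theorem mem_range_place {i : Fin n} (h : i ∈ Set.range (place e eI ιb)) :
    ∃ τ s a, i = ix e ιb τ s a := by
  obtain ⟨u, rfl⟩ := h
  exact ⟨_, _, _, rfl⟩

theorem XX_out (f : Fin N → Si × Fin 8 → Si × Fin 8 → Si × Fin 8 → ℤ) (i j l : Fin n)
    (h : (∀ τ s a, i ≠ ix e ιb τ s a) ∨ (∀ τ s a, j ≠ ix e ιb τ s a) ∨
      ∀ τ s a, l ≠ ix e ιb τ s a) :
    XX e eI ιb f i j l = if i = j ∧ j = l then 1 else 0 := by
  unfold XX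
  apply ext_out
  have key : ∀ i : Fin n, (∀ τ s a, i ≠ ix e ιb τ s a) → back (place e eI ιb) i = none := by
    intro i hi
    apply back_none
    intro hh
    obtain ⟨τ, s, a, h1⟩ := mem_range_place e eI ιb hh
    exact hi τ s a h1
  rcases h with h | h | h
  · exact Or.inl (key i h)
  · exact Or.inr (Or.inl (key j h))
  · exact Or.inr (Or.inr (key l h))

theorem act1_ix (k : Fin m → Perm (Fin 8)) (τ : Fin N) (s : Si) (a : Fin 8) :
    act1 e k (ix e ιb τ s a) = ix e ιb τ s (k (ιb (τ, s)) a) := act1_apply e k _ _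

theorem act1_not_ix (k : Fin m → Perm (Fin 8)) {i : Fin n} (h : ∀ τ s a, i ≠ ix e ιb τ s a) :
    ∀ τ s a, act1 e k i ≠ ix e ιb τ s a := by
  intro τ s a hh
  have h1 : act1 e k i = act1 e k (ix e ιb τ s ((k (ιb (τ, s)))⁻¹ a)) := by
    rw [act1_ix, hh]
    simp
  exact h _ _ _ ((act1 e k).injective h1)

/-- The action of block permutations on placed copies. -/
theorem XX_act (k : Fin m → Perm (Fin 8))
    (f f' : Fin N → Si × Fin 8 → Si × Fin 8 → Si × Fin 8 → ℤ)
    (h : ∀ τ s s' s'' a a' a'', f' τ (s, a) (s', a') (s'', a'') =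
      f τ (s, k (ιb (τ, s)) a) (s', k (ιb (τ, s')) a') (s'', k (ιb (τ, s'')) a''))
    (i j l : Fin n) :
    XX e eI ιb f (act1 e k i) (act1 e k j) (act1 e k l) = XX e eI ιb f' i j l := by
  by_cases h1 : ∀ τ s a, i ≠ ix e ιb τ s a
  · rw [XX_out e eI ιb f _ _ _ (Or.inl (act1_not_ix e ιb k h1)), XX_out e eI ιb f' _ _ _ (Or.inl h1)]
    simp only [EmbeddingLike.apply_eq_iff_eq]
  by_cases h2 : ∀ τ s a, j ≠ ix e ιb τ s a
  · rw [XX_out e eI ιb f _ _ _ (Or.inr (Or.inl (act1_not_ix e ιb k h2))),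
      XX_out e eI ιb f' _ _ _ (Or.inr (Or.inl h2))]
    simp only [EmbeddingLike.apply_eq_iff_eq]
  by_cases h3 : ∀ τ s a, l ≠ ix e ιb τ s a
  · rw [XX_out e eI ιb f _ _ _ (Or.inr (Or.inr (act1_not_ix e ιb k h3))),
      XX_out e eI ιb f' _ _ _ (Or.inr (Or.inr h3))]
    simp only [EmbeddingLike.apply_eq_iff_eq]
  push Not at h1 h2 h3
  obtain ⟨τ, s, a, rfl⟩ := h1
  obtain ⟨τ', s', a', rfl⟩ := h2
  obtain ⟨τ'', s'', a'', rfl⟩ := h3
  rw [act1_ix, act1_ix, act1_ix, XX_apply, XX_apply]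
  by_cases hτ : τ = τ' ∧ τ' = τ''
  · obtain ⟨rfl, rfl⟩ := hτ
    simp only [and_self, if_true]
    rw [h]
  · rw [if_neg hτ, if_neg hτ]

end Place

end Pool.Agent.Lib.MP_64d474_lc.Blk
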