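import Pool.Agent.Lib.SymCirc.Spec
import Pool.Agent.Lib.MP_64d474_lc.Circ.Game
import Pool.Agent.Lib.MP_64d474_lc.Circ.Gap

/-!
Symbolic determinants and circuits that are symmetric under the permutations of small blocks of
indices: definitions and module statements.
-/

namespace Pool.Agent.Lib.MP_64d474_lc.Blk

open Equiv Pool.Agent.Lib.MP_64d474_lc.Circ

/-- The map of elements given by a gauge and a permutation of the padding elements. -/
def gmapP {N : Type} {m : ℕ} (g : Gauge N) (π : Perm (Fin m)) : El N m → El N m :=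
  Sum.map (rowMap g) (Sum.map (colMap g) (Sum.map (varMap g) π))

/-- The site of an element agrees with `s`, unless it is a padding element. -/
def OnSite {N : Type} {m : ℕ} (s : Site N) : El N m → Prop
  | .inl r => s = .inl r.1
  | .inr (.inl c) => s = .inr c.1.2
  | .inr (.inr (.inl x)) => s = .inr x.1.2
  | .inr (.inr (.inr _)) => True

/-- B1. The elements are the points of blocks of 8 points, one block for each site; a gauge acts
by a family of permutations of the blocks, in the commutator subgroup. -/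
def StCell : Prop :=
  ∀ (N : Type) [Fintype N] [DecidableEq N], ∃ D : Site N × Fin 8 ≃ El N (12 * Fintype.card N),
    (∀ s a, OnSite s (D (s, a))) ∧
    ∀ g : Gauge N, ∃ (κ : Site N → Perm (Fin 8)) (π : Perm (Fin (12 * Fintype.card N))),
      (∀ s, κ s ∈ commutator (Perm (Fin 8))) ∧ (∀ s, Agree (gid N) g s → κ s = 1) ∧
      ∀ s a, D (s, κ s a) = gmapP g π (D (s, a))

/-- B2. Moving the sign change along a path which avoids `Δ`. -/
def StTwist : Prop :=
  ∀ (N : Type) [Fintype N] [DecidableEq N] (P : Bool → Perm N) (t : N → ℤˣ) (m : ℕ)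
    (Δ : Finset (Site N)) (x y : N), Reach P Δ x y → ∃ g : Gauge N,
      (∀ z ∈ Δ, Agree (gid N) g z) ∧ ∀ (π : Perm (Fin m)) (u v w : El N m),
        tens P (s1 t (P false x)) m (gmapP g π u) (gmapP g π v) (gmapP g π w) =
          tens P (s1 t (P false y)) m u v w

/-- B3. The two matrices differ only at entries which involve the node `x`. -/
def StLocal : Prop :=
  ∀ (N : Type) [Fintype N] [DecidableEq N] (P : Bool → Perm N) (t : N → ℤˣ) (m : ℕ) (x : N)
    (u v w : El N m), ¬ OnSite (Sum.inr x) u ∨ u ∈ Set.range (fun z : Fin m =>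
      (Sum.inr (Sum.inr (Sum.inr z)) : El N m)) → ¬ OnSite (Sum.inr x) v ∨
      v ∈ Set.range (fun z : Fin m => (Sum.inr (Sum.inr (Sum.inr z)) : El N m)) →
    tens P (s0 t) m u v w = tens P (s1 t (P false x)) m u v w

/-- B4. The pebble game, for a given node of the big component. -/
def StGameAt : Prop :=
  ∀ (N : Type) [Fintype N] [DecidableEq N] (P : Bool → Perm N) (k m : ℕ) (t : N → ℤˣ),
    2 ≤ Fintype.card N → (∀ S : Finset (Site N), S.card ≤ k → ∃ C, Big P S C) →
    ∀ (C : Finset N) (c : N), Big P ∅ C → c ∈ C →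
      KEquiv (tens P (s0 t) m) (tens P (s1 t (P false c)) m) k

/-! ### Placing copies in the blocks -/

/-- Disjoint copies of different tensors. -/
def mix {I T : Type} [DecidableEq T] (f : T → I → I → I → ℤ) : I × T → I × T → I × T → ℤ :=
  fun i j l => if i.2 = j.2 ∧ j.2 = l.2 then f i.2 i.1 j.1 l.1 else 0

/-- The action of a family of permutations of the blocks on the triples of indices; the blocks are
given by `e`, indices outside the blocks are fixed. -/
noncomputable def act3 {m n : ℕ} (e : Fin m × Fin 8 ↪ Fin n) (k : Fin m → Perm (Fin 8)) :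
    Perm (Fin n × Fin n × Fin n) :=
  let σ := Perm.viaEmbedding (SymCirc.ptMap k) e
  σ.prodCongr (σ.prodCongr σ)

/-- The group of the permutations of the coefficients that permute the indices inside the blocks
`e(i, ·)`. -/
def blockPerms3 {m n : ℕ} (e : Fin m × Fin 8 ↪ Fin n) : Set (Perm (Fin n × Fin n × Fin n)) :=
  {σ | ∃ k : Fin m → Perm (Fin 8), σ = act3 e k}

/-- The coefficients as a function of triples. -/
def unc {n : ℕ} (a : Fin n → Fin n → Fin n → ℤ) : Fin n × Fin n × Fin n → ℤ :=
  fun u => a u.1 u.2.1 u.2.2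

/-- The final theorem. -/
def StBlock : Prop :=
  ∀ (q N m n : ℕ) (e : Fin m × Fin 8 ↪ Fin n), 2 ≤ q → 1 ≤ N → 1536 * q * N ≤ m →
    ∃ a b : Fin n → Fin n → Fin n → ℤ,
      (∀ i j l, a i j l = a j i l ∧ a i j l ∈ ({-1, 0, 1, 2} : Set ℤ)) ∧
      (∀ i j l, b i j l = b j i l ∧ b i j l ∈ ({-1, 0, 1, 2} : Set ℤ)) ∧
      (symMat a).det ≠ 0 ∧
      (∀ (F : Type) [Field F] (x : Fin n → F),
        (Matrix.of fun i j => ∑ l, (b i j l : F) * x l).rank + N ≤ n) ∧
      (∀ (V : Type) (C : SymCirc.Circuit (Fin n × Fin n × Fin n) ℤ V),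
        C.SymmetricUnder (blockPerms3 e) →
        (∀ g, (C.orbit (blockPerms3 e) g).Finite ∧ (C.orbit (blockPerms3 e) g).ncard < 2 ^ q) →
        C.val (unc a) C.out = C.val (unc b) C.out) ∧
      ∀ φ : CForm (4 * q), (∀ v, Holds a φ v) ↔ (∀ v, Holds b φ v)

end Pool.Agent.Lib.MP_64d474_lc.Blk
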