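import Pool.Agent.Lib.MP_64d474_lc.Blk.Spec
import Pool.Agent.Lib.MP_64d474_lc.Circ.Path

/-!
B2: moving the sign change along a path which avoids a set of sites.
-/

namespace Pool.Agent.Lib.MP_64d474_lc.Blk

open Equiv Pool.Agent.Lib.MP_64d474_lc.Circ

namespace Twist

variable {N : Type} [DecidableEq N]

/-- A gauge which fits to two families of link signs transports the doubled matrix. -/
theorem dbl_gauge' (P : Bool → Perm N) (s s' : Bool × N → ℤˣ) (g : Gauge N)
    (h : ∀ n d e, g.eps n d e * g.rho (d, if e then P d n else n) *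
      (if e then s (d, P d n) * s' (d, P d n) else 1) = 1)
    (d : Bool) (m : N) (σ : ℤˣ) (c : Bool) (n : N) (τ : ℤˣ) (x : Bool) (n' : N) (ω : ℤˣ) :
    dbl P s' (rowMap g ((d, m), σ)) (colMap g ((c, n), τ)) (varMap g ((x, n'), ω)) =
      dbl P s ((d, m), σ) ((c, n), τ) ((x, n'), ω) := by
  by_cases hn : n = n'
  · subst hn
    have h1 := h n d false
    have h2 := h n d true
    have hl := local_gauge (g.eps n) (g.even n) c x d
    simp only [dbl, rowMap, colMap, varMap, base, if_true]
    have hx : xor (xor c (swb (g.eps n))) (xor x (swb (g.eps n))) = xor c x := by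
      cases c <;> cases x <;> cases swb (g.eps n) <;> rfl
    have hu : ∀ u : ℤˣ, ((u : ℤˣ) : ℤ) * ((u : ℤˣ) : ℤ) = 1 := Int.units_coe_mul_self
    simp only [if_true, Bool.false_eq_true, if_false, mul_one] at h1 h2
    have hl0 := hl false
    have hl1 := hl true
    rw [hx] at hl0 hl1
    simp only [hx]
    congr 1
    have T1 : ((g.rho (d, m) : ℤˣ) : ℤ) * ((scol (g.eps n) c * svar (g.eps n) x : ℤˣ) : ℤ) *
        (if m = n ∧ xor c x = false then sg d (xor x (swb (g.eps n))) else 0) =
        (if m = n ∧ xor c x = false then sg d x else 0) := by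
      by_cases hm1 : m = n
      · subst hm1
        have k1 := congrArg (fun u : ℤˣ => (u : ℤ)) h1
        simp only [Units.val_mul, Units.val_one] at k1
        simp only [true_and]
        linear_combination ((g.rho (d, m) : ℤˣ) : ℤ) * hl0 +
          (if xor c x = false then sg d x else 0) * k1
      · simp [hm1]
    have T2 : ((g.rho (d, m) : ℤˣ) : ℤ) * ((scol (g.eps n) c * svar (g.eps n) x : ℤˣ) : ℤ) *
        (if m = P d n ∧ xor c x = true then
          ((s' (d, m) : ℤˣ) : ℤ) * sg d (xor x (swb (g.eps n))) else 0) =
        (if m = P d n ∧ xor c x = true then ((s (d, m) : ℤˣ) : ℤ) * sg d x else 0) := by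
      by_cases hm2 : m = P d n
      · subst hm2
        have k2 := congrArg (fun u : ℤˣ => (u : ℤ)) h2
        simp only [Units.val_mul, Units.val_one] at k2
        simp only [true_and]
        have e1 : ∀ (p : Prop) [Decidable p] (a b : ℤ), (if p then a * b else 0) =
            a * (if p then b else 0) := by
          intro p _ a b; split_ifs <;> simp
        rw [e1, e1]
        have hs0 := hu (s (d, P d n))
        linear_combination (((g.rho (d, P d n) : ℤˣ) : ℤ) * ((s' (d, P d n) : ℤˣ) : ℤ)) * hl1 +
          (if xor c x = true then sg d x else 0) * (((s (d, P d n) : ℤˣ) : ℤ) * k2 -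
            ((g.rho (d, P d n) : ℤˣ) : ℤ) * ((s' (d, P d n) : ℤˣ) : ℤ) *
              ((g.eps n d true : ℤˣ) : ℤ) * hs0)
      · simp [hm2]
    simp only [Units.val_mul] at T1 T2 ⊢
    linear_combination ((σ : ℤ) * (τ : ℤ) * (ω : ℤ)) * (T1 + T2)
  · simp [dbl, rowMap, colMap, varMap, base, hn]

/-- The matrices are transported, with a permutation of the padding elements. -/
theorem tens_gauge' (P : Bool → Perm N) (s s' : Bool × N → ℤˣ) (g : Gauge N)
    (h : ∀ n d e, g.eps n d e * g.rho (d, if e then P d n else n) *
      (if e then s (d, P d n) * s' (d, P d n) else 1) = 1)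
    {m : ℕ} (π : Perm (Fin m)) (u v w : El N m) :
    tens P s' m (gmapP g π u) (gmapP g π v) (gmapP g π w) = tens P s m u v w := by
  have hkey : ∀ (r c y : Ix N),
      dbl P s' (rowMap g r) (colMap g c) (varMap g y) = dbl P s r c y := by
    rintro ⟨⟨d, mm⟩, σ⟩ ⟨⟨c, n⟩, τ⟩ ⟨⟨y, n'⟩, ω⟩
    exact dbl_gauge' P s s' g h d mm σ c n τ y n' ω
  have hinj := varMap_inj g
  rcases u with r | c | y | z
  · rcases v with r' | c' | y' | z'
    · rfl
    · rcases w with r'' | c'' | y'' | z''
      · rfl
      · rfl
      · exact hkey r c' y''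
      · rfl
    · rfl
    · rfl
  · rcases v with r' | c' | y' | z'
    · rcases w with r'' | c'' | y'' | z''
      · rfl
      · rfl
      · exact hkey r' c y''
      · rfl
    · rfl
    · rfl
    · rfl
  · rcases v with r' | c' | y' | z'
    · rfl
    · rfl
    · rcases w with r'' | c'' | y'' | z''
      · rfl
      · rfl
      · simp only [gmapP, Sum.map_inl, Sum.map_inr, tens, hinj.eq_iff]
      · rfl
    · rfl
  · rcases v with r' | c' | y' | z'
    · rfl
    · rfl
    · rfl
    · rcases w with r'' | c'' | y'' | z''
      · rfl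
      · rfl
      · rfl
      · simp only [gmapP, Sum.map_inr, tens, π.injective.eq_iff]

theorem s0_mul_s1 (t : N → ℤˣ) (m0 : N) (r : Bool × N) :
    s0 t r * s1 t m0 r = if r = (false, m0) then -1 else 1 := by
  unfold s1
  split_ifs
  · rw [mul_neg, Int.units_mul_self]
  · exact Int.units_mul_self _

omit [DecidableEq N] in
theorem reach_end {P : Bool → Perm N} {Δ : Finset (Site N)} {x y : N} (h : Reach P Δ x y) :
    x = y ∨ Sum.inr y ∉ Δ := by
  induction h with
  | refl => exact Or.inl rfl
  | tail _ hs _ => exact Or.inr hs.2.1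

end Twist

open Twist in
theorem stTwist : StTwist := by
  intro N _ _ P t m Δ x y hr
  rcases eq_or_ne x y with rfl | hxy
  · refine ⟨gid N, fun z _ => ?_, fun π u v w => ?_⟩
    · rcases z with r | n <;> rfl
    · refine tens_gauge' P _ _ (gid N) (fun n d e => ?_) π u v w
      cases e
      · simp [gid]
      · simp only [gid, if_true, one_mul, Int.units_mul_self]
  · have hy : Sum.inr y ∉ Δ := (reach_end hr).resolve_left hxy
    obtain ⟨g1, d1, e1, h1, a1⟩ := stPath N P t (P false x) Δ (gid N) x y false true
      (gid_def P t x) hr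
    obtain ⟨g2, h2, a2⟩ := move_node P t (P false x) g1 y d1 e1 h1 false true
    refine ⟨g2, fun z hz => agree_trans (a1 z hz) (a2 z ?_), fun π u v w => ?_⟩
    · rintro rfl
      exact hy hz
    · refine tens_gauge' P _ _ g2 (fun n d e => ?_) π u v w
      have h3 := h2 n d e
      cases e
      · simp only [dfct, Bool.false_eq_true, if_false, mul_one, and_false] at h3 ⊢
        exact h3
      · simp only [dfct, if_true, and_true] at h3 ⊢
        have h4 := s0_mul_s1 t (P false y) (d, P d n)
        have h5 : (((d, P d n) : Bool × N) = (false, P false y)) ↔ (n = y ∧ d = false) := by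
          simp only [Prod.mk.injEq]
          constructor
          · rintro ⟨rfl, h⟩
            exact ⟨(P false).injective h, rfl⟩
          · rintro ⟨rfl, rfl⟩
            exact ⟨rfl, rfl⟩
        rw [if_congr h5 rfl rfl] at h4
        have h6 : s0 t (d, P d n) * s0 t (d, P d n) = 1 := Int.units_mul_self _
        calc g2.eps n d true * g2.rho (d, P d n) *
              (s1 t (P false y) (d, P d n) * s1 t (P false x) (d, P d n))
            = (g2.eps n d true * g2.rho (d, P d n) * (s0 t (d, P d n) *
              s1 t (P false x) (d, P d n))) * (s0 t (d, P d n) * s1 t (P false y) (d, P d n)) *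
              (s0 t (d, P d n) * s0 t (d, P d n))⁻¹ := by
                rw [h6]
                have h7 : s0 t (d, P d n) * (s0 t (d, P d n)) = 1 := h6
                calc g2.eps n d true * g2.rho (d, P d n) *
                      (s1 t (P false y) (d, P d n) * s1 t (P false x) (d, P d n))
                    = g2.eps n d true * g2.rho (d, P d n) *
                      (s1 t (P false y) (d, P d n) * s1 t (P false x) (d, P d n)) *
                      (s0 t (d, P d n) * s0 t (d, P d n)) := by rw [h7, mul_one]
                  _ = _ := by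
                    rw [inv_one, mul_one]
                    ac_rfl
          _ = 1 := by
            rw [h3, h4, h6]
            split_ifs <;> simp

end Pool.Agent.Lib.MP_64d474_lc.Blk
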